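import Pool.Agent.Y660.QP.Basic

/-!
Job HYP (helper734, project Y734/QP), by helper660: germs along an ultrafilter and levels.
-/

set_option autoImplicit false

namespace Pool.Agent.Y660.QP

open Pool.Agent.Y734 Filter Topology MvPolynomial

/-- the homomorphism to a field of germs -/
structure Gm (U : Ultrafilter ℕ) (Ω : Type) [Field Ω] [Algebra ℚ Ω] where
  π : (ℕ → ℂ) →+* Ω
  ker : ∀ f, π f = 0 ↔ ∀ᶠ t in (U : Filter ℕ), f t = 0

theorem ex_gm (U : Ultrafilter ℕ) : ∃ (Ω : Type) (_ : Field Ω) (_ : Algebra ℚ Ω),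
    Nonempty (Gm U Ω) := by
  let K := Germ (U : Filter ℕ) ℂ
  let π : (ℕ → ℂ) →+* K := Germ.coeRingHom (U : Filter ℕ)
  let _ : Algebra ℚ K := (π.comp (algebraMap ℚ (ℕ → ℂ))).toAlgebra
  refine ⟨K, inferInstance, inferInstance, ⟨⟨π, fun f => ?_⟩⟩⟩
  have h1 : π f = 0 ↔ ((f : ℕ → ℂ) : Germ (U : Filter ℕ) ℂ) = ((0 : ℕ → ℂ) : Germ (U : Filter ℕ) ℂ) :=
    Iff.rfl
  rw [h1, Germ.coe_eq]
  exact Iff.rfl

section

variable {U : Ultrafilter ℕ} {Ω : Type} [Field Ω] [Algebra ℚ Ω] (g : Gm U Ω)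

theorem Gm.eq_iff (f f' : ℕ → ℂ) : g.π f = g.π f' ↔ ∀ᶠ t in (U : Filter ℕ), f t = f' t := by
  rw [← sub_eq_zero, ← map_sub, g.ker]
  apply eventually_congr
  refine Eventually.of_forall fun t => ?_
  rw [Pi.sub_apply, sub_eq_zero]

theorem Gm.rat (r : ℚ) : g.π (fun _ => (r : ℂ)) = algebraMap ℚ Ω r := by
  have h : g.π.comp (algebraMap ℚ (ℕ → ℂ)) = algebraMap ℚ Ω := Subsingleton.elim _ _
  rw [← h]
  congr 1

theorem Gm.smul (r : ℚ) (f : ℕ → ℂ) : r • g.π f = g.π (fun t => (r : ℂ) * f t) := by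
  rw [Algebra.smul_def, ← g.rat, ← map_mul]
  rfl

theorem Gm.aeval {n : ℕ} (z : ℕ → Fin n → ℂ) (Φ : MvPolynomial (Fin n) ℚ) :
    MvPolynomial.aeval (fun j => g.π (fun t => z t j)) Φ =
      g.π (fun t => MvPolynomial.aeval (z t) Φ) := by
  induction Φ using MvPolynomial.induction_on with
  | C a =>
    simp only [aeval_C]
    rw [← g.rat]
    rfl
  | add p q hp hq =>
    simp only [map_add]
    rw [hp, hq, ← map_add]
    rfl
  | mul_X p i hp =>
    simp only [map_mul, aeval_X]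
    rw [hp, ← map_mul]
    rfl

/-- the factor at the place `v` -/
noncomputable def fac {S : Finset ℕ} (v : Option S) (k : ℕ) (h : ℝ) : ℝ :=
  if v = none then Real.exp (k * h) else 1

theorem fac_nonneg {S : Finset ℕ} (v : Option S) (k : ℕ) (h : ℝ) : 0 ≤ fac v k h := by
  unfold fac
  split_ifs
  · exact (Real.exp_pos _).le
  · exact zero_le_one

theorem fac_mul {S : Finset ℕ} (v : Option S) (k l : ℕ) (h : ℝ) :
    fac v k h * fac v l h = fac v (k + l) h := by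
  unfold fac
  split_ifs
  · rw [← Real.exp_add]
    congr 1
    push_cast
    ring
  · rw [one_mul]

/-- levels -/
def Lv {S : Finset ℕ} (h : ℕ → ℝ) (v : Option S) (k : ℕ) (y : Ω) (a : ℝ) : Prop :=
  ∃ (r : ℕ → ℚ) (D : ℕ), 1 ≤ D ∧ y = g.π (fun t => ((r t : ℚ) : ℂ)) ∧
    (∀ᶠ t in (U : Filter ℕ), ∃ m : ℤ, (D : ℚ) * r t = m) ∧
    Sm U h (fun t => fac v k (h t)) (fun t => absQ (v.map (fun p => (p : ℕ))) (r t)) a

variable {g} {S : Finset ℕ} {h : ℕ → ℝ} (hS : ∀ p ∈ S, p.Prime) (hh : Tendsto h U atTop)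
  (hh0 : ∀ t, 0 ≤ h t)

include hS hh hh0 in
theorem lv_one (v : Option S) : Lv g h v 0 1 0 := by
  refine ⟨fun _ => 1, 1, le_rfl, ?_, Eventually.of_forall fun t => ⟨1, by norm_num⟩, ?_⟩
  · rw [g.rat, map_one]
  · apply Sm.const hh hh0 zero_le_one (fun t => fac_nonneg _ _ _)
    refine Eventually.of_forall fun t => ?_
    rw [absQ_one (pv_map hS v), one_mul]
    unfold fac
    split_ifs
    · simp
    · exact le_rfl

include hS in
theorem lv_mul (v : Option S) (k l : ℕ) (x y : Ω) (a b : ℝ) (h1 : Lv g h v k x a)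
    (h2 : Lv g h v l y b) : Lv g h v (k + l) (x * y) (a + b) := by
  obtain ⟨r, D, hD, hx, hr, hs⟩ := h1
  obtain ⟨r', D', hD', hy, hr', hs'⟩ := h2
  refine ⟨fun t => r t * r' t, D * D', ?_, ?_, ?_, ?_⟩
  · exact Nat.one_le_iff_ne_zero.2 (mul_ne_zero (by omega) (by omega))
  · rw [hx, hy, ← map_mul]
    congr 1
    funext t
    simp
  · filter_upwards [hr, hr'] with t ⟨m, hm⟩ ⟨m', hm'⟩
    refine ⟨m * m', ?_⟩
    push_cast
    rw [← hm, ← hm']
    ring
  · have h3 := Sm.mul (fun t => absQ_nonneg _ _) (fun t => absQ_nonneg _ _) hs hs'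
    intro ε hε
    filter_upwards [h3 ε hε] with t h4
    rw [absQ_mul (pv_map hS v), ← fac_mul]
    exact h4

include hS hh in
theorem lv_add (v : Option S) (k : ℕ) (x y : Ω) (a : ℝ) (h1 : Lv g h v k x a)
    (h2 : Lv g h v k y a) : Lv g h v k (x + y) a := by
  obtain ⟨r, D, hD, hx, hr, hs⟩ := h1
  obtain ⟨r', D', hD', hy, hr', hs'⟩ := h2
  refine ⟨fun t => r t + r' t, D * D', ?_, ?_, ?_, ?_⟩
  · exact Nat.one_le_iff_ne_zero.2 (mul_ne_zero (by omega) (by omega))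
  · rw [hx, hy, ← map_add]
    congr 1
    funext t
    simp
  · filter_upwards [hr, hr'] with t ⟨m, hm⟩ ⟨m', hm'⟩
    refine ⟨D' * m + D * m', ?_⟩
    push_cast
    rw [← hm, ← hm']
    ring
  · refine (Sm.add hh (fun t => fac_nonneg _ _ _) hs hs').of_le hh (K := 1) zero_le_one
      (fun t => fac_nonneg _ _ _) (Eventually.of_forall fun t => ?_)
    rw [one_mul]
    exact absQ_add (pv_map hS v) _ _

include hS hh in
theorem lv_smul (v : Option S) (k : ℕ) (x : Ω) (a : ℝ) (q : ℚ) (h1 : Lv g h v k x a) :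
    Lv g h v k (q • x) a := by
  obtain ⟨r, D, hD, hx, hr, hs⟩ := h1
  refine ⟨fun t => q * r t, q.den * D, ?_, ?_, ?_, ?_⟩
  · exact Nat.one_le_iff_ne_zero.2 (mul_ne_zero q.den_nz (by omega))
  · rw [hx, g.smul]
    congr 1
    funext t
    simp
  · filter_upwards [hr] with t ⟨m, hm⟩
    refine ⟨q.num * m, ?_⟩
    push_cast
    rw [← hm, ← Rat.mul_den_eq_num]
    ring
  · refine hs.of_le hh (K := absQ (v.map (fun p => (p : ℕ))) q) (absQ_nonneg _ _)
      (fun t => fac_nonneg _ _ _) (Eventually.of_forall fun t => ?_)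
    exact (absQ_mul (pv_map hS v) _ _).le

theorem lv_mono (hh0 : ∀ t, 0 ≤ h t) (v : Option S) (k : ℕ) (x : Ω) {a b : ℝ} (hab : b ≤ a)
    (h1 : Lv g h v k x a) : Lv g h v k x b := by
  obtain ⟨r, D, hD, hx, hr, hs⟩ := h1
  exact ⟨r, D, hD, hx, hr, hs.mono hh0 (fun t => fac_nonneg _ _ _) hab⟩

end

end Pool.Agent.Y660.QP
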