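import Pool.Agent.Y734.Stms2

/-!
Job HYP (helper734, project Y734/QP), by helper660: absolute values, sizes along an ultrafilter,
seminorms.
-/

set_option autoImplicit false

namespace Pool.Agent.Y660.QP

open Pool.Agent.Y734 Filter Topology MvPolynomial

/-! ### Absolute values -/

/-- `v` is the real place or a prime -/
def PV (v : Option ℕ) : Prop := ∀ p, v = some p → p.Prime

theorem pv_map {S : Finset ℕ} (hS : ∀ p ∈ S, p.Prime) (v : Option S) :
    PV (v.map (fun p => (p : ℕ))) := by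
  intro p hp
  cases v with
  | none =>
    have h : (none : Option ℕ) = some p := hp
    exact absurd h (by simp)
  | some q =>
    have h : some (q : ℕ) = some p := hp
    rw [← Option.some.inj h]
    exact hS _ q.2

theorem absQ_nonneg (v : Option ℕ) (r : ℚ) : 0 ≤ absQ v r := by
  cases v with
  | none => exact abs_nonneg _
  | some p =>
    simp only [absQ]
    exact_mod_cast padicNorm.nonneg r

theorem absQ_mul {v : Option ℕ} (hv : PV v) (r s : ℚ) : absQ v (r * s) = absQ v r * absQ v s := by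
  cases v with
  | none =>
    simp only [absQ, Rat.cast_mul, abs_mul]
  | some p =>
    have := Fact.mk (hv p rfl)
    simp only [absQ, padicNorm.mul, Rat.cast_mul]

theorem absQ_add {v : Option ℕ} (hv : PV v) (r s : ℚ) :
    absQ v (r + s) ≤ absQ v r + absQ v s := by
  cases v with
  | none =>
    simp only [absQ, Rat.cast_add]
    exact abs_add_le _ _
  | some p =>
    have := Fact.mk (hv p rfl)
    simp only [absQ]
    exact_mod_cast padicNorm.triangle_ineq r s

theorem absQ_one {v : Option ℕ} (hv : PV v) : absQ v 1 = 1 := by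
  cases v with
  | none => simp [absQ]
  | some p =>
    have := Fact.mk (hv p rfl)
    simp [absQ]

theorem absQ_int_le {p : ℕ} (hp : p.Prime) (m : ℤ) : absQ (some p) (m : ℚ) ≤ 1 := by
  have := Fact.mk hp
  simp only [absQ]
  exact_mod_cast padicNorm.of_int m

/-- the product formula, easy half -/
theorem one_le_mul {p : ℕ} (hp : p.Prime) {m : ℤ} (hm : m ≠ 0) :
    1 ≤ absQ (some p) (m : ℚ) * |(m : ℝ)| := by
  have := Fact.mk hp
  have hmq : (m : ℚ) ≠ 0 := by exact_mod_cast hm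
  have hp0 : (0 : ℝ) < p := by exact_mod_cast hp.pos
  have h1 : absQ (some p) (m : ℚ) = ((p : ℝ) ^ (padicValNat p m.natAbs))⁻¹ := by
    simp only [absQ]
    rw [padicNorm.eq_zpow_of_nonzero hmq, padicValRat.of_int, zpow_neg]
    unfold padicValInt
    rw [zpow_natCast, Rat.cast_inv, Rat.cast_pow, Rat.cast_natCast]
  have h2 : p ^ (padicValNat p m.natAbs) ≤ m.natAbs :=
    Nat.le_of_dvd (Int.natAbs_pos.2 hm) pow_padicValNat_dvd
  have h3 : (p : ℝ) ^ (padicValNat p m.natAbs) ≤ |(m : ℝ)| := by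
    have h4 : ((m.natAbs : ℕ) : ℝ) = |(m : ℝ)| := by
      rw [← Int.cast_abs, Int.abs_eq_natAbs, Int.cast_natCast]
    rw [← h4]
    exact_mod_cast h2
  rw [h1, inv_mul_eq_div, le_div_iff₀ (by positivity), one_mul]
  exact h3

/-! ### Sizes along an ultrafilter -/

/-- `f t ≤ g t * exp (- (a - ε) h t)` for almost all `t` -/
def Sm (U : Ultrafilter ℕ) (h g f : ℕ → ℝ) (a : ℝ) : Prop :=
  ∀ ε : ℝ, 0 < ε → ∀ᶠ t in (U : Filter ℕ), f t ≤ g t * Real.exp (-(a - ε) * h t)

theorem ev_const {U : Ultrafilter ℕ} {h : ℕ → ℝ} (hh : Tendsto h U atTop) (K : ℝ) {ε : ℝ}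
    (hε : 0 < ε) : ∀ᶠ t in (U : Filter ℕ), K ≤ Real.exp (ε * h t) :=
  (Real.tendsto_exp_atTop.comp (hh.const_mul_atTop hε)).eventually_ge_atTop K

theorem Sm.of_le {U : Ultrafilter ℕ} {h g f f' : ℕ → ℝ} {a : ℝ} (hh : Tendsto h U atTop)
    {K : ℝ} (hK : 0 ≤ K) (hg : ∀ t, 0 ≤ g t) (hf : Sm U h g f a)
    (hle : ∀ᶠ t in (U : Filter ℕ), f' t ≤ K * f t) : Sm U h g f' a := by
  intro ε hε
  filter_upwards [hf (ε / 2) (by positivity), hle, ev_const hh K (show 0 < ε / 2 by positivity)]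
    with t h1 h2 h3
  calc f' t ≤ K * f t := h2
    _ ≤ K * (g t * Real.exp (-(a - ε / 2) * h t)) := mul_le_mul_of_nonneg_left h1 hK
    _ ≤ Real.exp (ε / 2 * h t) * (g t * Real.exp (-(a - ε / 2) * h t)) :=
        mul_le_mul_of_nonneg_right h3 (mul_nonneg (hg t) (Real.exp_pos _).le)
    _ = g t * (Real.exp (ε / 2 * h t) * Real.exp (-(a - ε / 2) * h t)) := by ring
    _ = g t * Real.exp (-(a - ε) * h t) := by
        rw [← Real.exp_add]
        congr 2
        ring

theorem Sm.add {U : Ultrafilter ℕ} {h g f f' : ℕ → ℝ} {a : ℝ} (hh : Tendsto h U atTop)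
    (hg : ∀ t, 0 ≤ g t) (hf : Sm U h g f a) (hf' : Sm U h g f' a) :
    Sm U h g (fun t => f t + f' t) a := by
  have h1 : Sm U h g (fun t => (f t + f' t) / 2) a := by
    intro ε hε
    filter_upwards [hf ε hε, hf' ε hε] with t h1 h2
    linarith
  refine h1.of_le hh (K := 2) (by norm_num) hg (Eventually.of_forall fun t => ?_)
  linarith

theorem Sm.mul {U : Ultrafilter ℕ} {h g f g' f' : ℕ → ℝ} {a b : ℝ}
    (hf0 : ∀ t, 0 ≤ f t) (hf0' : ∀ t, 0 ≤ f' t) (hf : Sm U h g f a) (hf' : Sm U h g' f' b) :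
    Sm U h (fun t => g t * g' t) (fun t => f t * f' t) (a + b) := by
  intro ε hε
  filter_upwards [hf (ε / 2) (by positivity), hf' (ε / 2) (by positivity)] with t h1 h2
  calc f t * f' t ≤ (g t * Real.exp (-(a - ε / 2) * h t)) * (g' t * Real.exp (-(b - ε / 2) * h t)) :=
        mul_le_mul h1 h2 (hf0' t) ((hf0 t).trans h1)
    _ = g t * g' t * (Real.exp (-(a - ε / 2) * h t) * Real.exp (-(b - ε / 2) * h t)) := by ring
    _ = _ := by
        rw [← Real.exp_add]
        congr 2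
        ring

theorem Sm.mono {U : Ultrafilter ℕ} {h g f : ℕ → ℝ} {a b : ℝ} (hh : ∀ t, 0 ≤ h t)
    (hg : ∀ t, 0 ≤ g t) (hab : b ≤ a) (hf : Sm U h g f a) : Sm U h g f b := by
  intro ε hε
  filter_upwards [hf ε hε] with t h1
  refine h1.trans (mul_le_mul_of_nonneg_left (Real.exp_le_exp.2 ?_) (hg t))
  exact mul_le_mul_of_nonneg_right (by linarith) (hh t)

theorem Sm.max {U : Ultrafilter ℕ} {h g f f' : ℕ → ℝ} {a : ℝ}
    (hf : Sm U h g f a) (hf' : Sm U h g f' a) : Sm U h g (fun t => max (f t) (f' t)) a := by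
  intro ε hε
  filter_upwards [hf ε hε, hf' ε hε] with t h1 h2
  exact max_le h1 h2

theorem Sm.const {U : Ultrafilter ℕ} {h g f : ℕ → ℝ} (hh : Tendsto h U atTop)
    (hh0 : ∀ t, 0 ≤ h t) {K : ℝ} (hK : 0 ≤ K)
    (hg : ∀ t, 0 ≤ g t) (hle : ∀ᶠ t in (U : Filter ℕ), f t ≤ K * g t) : Sm U h g f 0 := by
  have h1 : Sm U h g g 0 := by
    intro ε hε
    refine Eventually.of_forall fun t => ?_
    refine le_mul_of_one_le_right (hg t) (Real.one_le_exp ?_)
    have := mul_nonneg hε.le (hh0 t)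
    linarith
  exact h1.of_le hh hK hg hle

theorem Sm.scale {U : Ultrafilter ℕ} {h f g : ℕ → ℝ} {a : ℝ} (hg : ∀ t, 0 ≤ g t)
    (hf : Sm U h (fun _ => 1) f a) : Sm U h g (fun t => g t * f t) a := by
  intro ε hε
  filter_upwards [hf ε hε] with t h1
  rw [one_mul] at h1
  exact mul_le_mul_of_nonneg_left h1 (hg t)

/-! ### Seminorms -/

theorem semi_le {v : Option ℕ} {N : (Fin 3 → ℚ) → ℝ} (hN : Semi v N) (G : Fin 3 → ℚ) :
    N G ≤ ∑ j, absQ v (G j) := by
  obtain ⟨h0, hadd, hsmul, hle, -⟩ := hN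
  have h1 : G = G 0 • Pi.single 0 1 + (G 1 • Pi.single 1 1 + G 2 • Pi.single 2 1) := by
    ext j
    fin_cases j <;> simp
  have h2 : ∀ j : Fin 3, N (G j • Pi.single j 1) ≤ absQ v (G j) := by
    intro j
    rw [hsmul]
    exact mul_le_of_le_one_right (absQ_nonneg _ _) (hle j)
  rw [Fin.sum_univ_three]
  calc N G = N (G 0 • Pi.single 0 1 + (G 1 • Pi.single 1 1 + G 2 • Pi.single 2 1)) := by rw [← h1]
    _ ≤ N (G 0 • Pi.single 0 1) + N (G 1 • Pi.single 1 1 + G 2 • Pi.single 2 1) := hadd _ _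
    _ ≤ N (G 0 • Pi.single 0 1) + (N (G 1 • Pi.single 1 1) + N (G 2 • Pi.single 2 1)) := by
        gcongr
        exact hadd _ _
    _ ≤ _ := by
        have := h2 0
        have := h2 1
        have := h2 2
        linarith

theorem semi_lin {v : Option ℕ} {N : (Fin 3 → ℚ) → ℝ} (hN : Semi v N) (G G' : Fin 3 → ℚ)
    (r s : ℚ) : N (r • G + s • G') ≤ absQ v r * N G + absQ v s * N G' := by
  obtain ⟨h0, hadd, hsmul, hle, -⟩ := hN
  refine (hadd _ _).trans ?_
  rw [hsmul, hsmul]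

/-! ### Denominators -/

theorem ex_den {n : ℕ} (G : Fin n → ℚ) : ∃ D : ℕ, 1 ≤ D ∧ ∀ i, ∃ m : ℤ, (D : ℚ) * G i = m := by
  refine ⟨∏ i, (G i).den, ?_, fun i => ?_⟩
  · exact Nat.one_le_iff_ne_zero.2 (Finset.prod_ne_zero_iff.2 fun i _ => (G i).den_nz)
  · obtain ⟨k, hk⟩ := Finset.dvd_prod_of_mem (fun i => (G i).den) (Finset.mem_univ i)
    refine ⟨k * (G i).num, ?_⟩
    rw [hk]
    push_cast
    have h1 : ((G i).den : ℚ) * G i = (G i).num := by
      rw [mul_comm]
      exact Rat.mul_den_eq_num _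
    calc ((G i).den : ℚ) * k * G i = k * ((G i).den * G i) := by ring
      _ = _ := by rw [h1]

end Pool.Agent.Y660.QP
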