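import Pool.Agent.Y660.QP.Germ

/-!
Job HYP (helper734, project Y734/QP), by helper660: the pairing, levels of the entries, Liouville.
-/

set_option autoImplicit false

namespace Pool.Agent.Y660.QP

open Pool.Agent.Y734 Filter Topology MvPolynomial

section

variable {S : Finset ℕ} {C : ℝ}

/-- the value of the bilinear form -/
def rr (Q : QData S C) (G G' : Fin 3 → ℚ) : ℚ := ∑ i, ∑ j, G i * (Q.M i j : ℚ) * G' j

theorem rr_eq (Q : QData S C) (G G' : Fin 3 → ℚ) : ((rr Q G G' : ℚ) : ℂ) =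
    Q.c * ((∑ j, (G j : ℂ) * Q.z j) * (∑ j, (G' j : ℂ) * Q.z' j) +
      (∑ j, (G' j : ℂ) * Q.z j) * (∑ j, (G j : ℂ) * Q.z' j)) := by
  unfold rr
  push_cast
  simp only [Q.M_eq]
  simp only [Fin.sum_univ_three]
  ring

/-- the absolute value of the form at a place -/
theorem rr_le {S : Finset ℕ} {C : ℝ} (Q : QData S C) (v : Option S) (G G' : Fin 3 → ℚ) :
    absQ (v.map (fun p => (p : ℕ))) (rr Q G G') ≤
      |C| * (fac v 1 Q.h * max (Q.N v G * Q.N' v G') (Q.N' v G * Q.N v G')) := by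
  have hmax : 0 ≤ max (Q.N v G * Q.N' v G') (Q.N' v G * Q.N v G') :=
    le_max_of_le_left (mul_nonneg ((Q.semi v).1 _) ((Q.semi' v).1 _))
  cases v with
  | none =>
    have h1 := Q.pair_none G G'
    have h2 : fac (none : Option S) 1 Q.h = Real.exp Q.h := by
      unfold fac
      rw [if_pos rfl, Nat.cast_one, one_mul]
    rw [h2]
    have h3 : C * Real.exp Q.h * max (Q.N none G * Q.N' none G') (Q.N' none G * Q.N none G') ≤
        |C| * (Real.exp Q.h * max (Q.N none G * Q.N' none G') (Q.N' none G * Q.N none G')) := by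
      rw [mul_assoc]
      exact mul_le_mul_of_nonneg_right (le_abs_self C) (mul_nonneg (Real.exp_pos _).le hmax)
    exact h1.trans h3
  | some p =>
    have h1 := Q.pair_some p G G'
    have h2 : fac (some p : Option S) 1 Q.h = 1 := by
      unfold fac
      rw [if_neg (by simp)]
    rw [h2, one_mul]
    exact h1.trans (mul_le_mul_of_nonneg_right (le_abs_self C) hmax)

/-- integrality -/
theorem rr_int (Q : QData S C) (G G' : Fin 3 → ℚ) {D D' : ℕ} (hD : ∀ i, ∃ m : ℤ, (D : ℚ) * G i = m)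
    (hD' : ∀ i, ∃ m : ℤ, (D' : ℚ) * G' i = m) :
    ∃ m : ℤ, ((D * D' : ℕ) : ℚ) * rr Q G G' = m := by
  choose m hm using hD
  choose m' hm' using hD'
  refine ⟨∑ i, ∑ j, m i * Q.M i j * m' j, ?_⟩
  unfold rr
  rw [Finset.mul_sum]
  push_cast
  apply Finset.sum_congr rfl
  intro i _
  rw [Finset.mul_sum]
  apply Finset.sum_congr rfl
  intro j _
  rw [← hm, ← hm']
  ring

/-- size -/
theorem rr_abs (Q : QData S C) (G G' : Fin 3 → ℚ) :
    |((rr Q G G' : ℚ) : ℝ)| ≤ (∑ i, ∑ j, |(G i : ℝ)| * |(G' j : ℝ)|) * Real.exp Q.h := by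
  unfold rr
  push_cast
  refine (Finset.abs_sum_le_sum_abs _ _).trans ?_
  rw [Finset.sum_mul]
  apply Finset.sum_le_sum
  intro i _
  refine (Finset.abs_sum_le_sum_abs _ _).trans ?_
  rw [Finset.sum_mul]
  apply Finset.sum_le_sum
  intro j _
  rw [abs_mul, abs_mul]
  have := Q.M_le i j
  calc |(G i : ℝ)| * |(Q.M i j : ℝ)| * |(G' j : ℝ)| = |(G i : ℝ)| * |(G' j : ℝ)| * |(Q.M i j : ℝ)| := by
        ring
    _ ≤ _ := mul_le_mul_of_nonneg_left this (by positivity)

/-- Liouville's inequality -/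
theorem liou (hS : ∀ p ∈ S, p.Prime) (G : Fin 3 → ℚ) : ∃ K : ℝ, 0 < K ∧
    ∀ (Q : QData S C) (v : Option S), rr Q G G ≠ 0 →
      Real.exp (-Q.h) ≤ K * Q.N v G ∧ Real.exp (-Q.h) ≤ K * Q.N' v G := by
  obtain ⟨D, hD, hDG⟩ := ex_den G
  obtain ⟨K1, hK1⟩ : ∃ K1 : ℝ, K1 = ∑ i, ∑ j, |(G i : ℝ)| * |(G j : ℝ)| := ⟨_, rfl⟩
  have hK10 : 0 ≤ K1 := by
    rw [hK1]
    exact Finset.sum_nonneg fun i _ => Finset.sum_nonneg fun j _ => by positivity
  obtain ⟨K2, hK2⟩ : ∃ K2 : ℝ, K2 = ∑ v : Option S, ∑ j, absQ (v.map (fun p => (p : ℕ))) (G j) :=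
    ⟨_, rfl⟩
  have hK2v : ∀ v : Option S, ∑ j, absQ (v.map (fun p => (p : ℕ))) (G j) ≤ K2 := by
    intro v
    rw [hK2]
    exact Finset.single_le_sum (f := fun v : Option S => ∑ j, absQ (v.map (fun p => (p : ℕ))) (G j))
      (fun v _ => Finset.sum_nonneg fun j _ => absQ_nonneg _ _) (Finset.mem_univ v)
  have hK20 : 0 ≤ K2 := by
    rw [hK2]
    exact Finset.sum_nonneg fun v _ => Finset.sum_nonneg fun j _ => absQ_nonneg _ _
  have hD0 : (0 : ℝ) < D := by exact_mod_cast hD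
  obtain ⟨L, hL⟩ : ∃ L : ℝ, L = ((D * D : ℕ) : ℝ) * (1 + K1) * |C| := ⟨_, rfl⟩
  have hL0 : 0 ≤ L := by rw [hL]; positivity
  refine ⟨1 + L * K2, by positivity, ?_⟩
  intro Q v hr
  have hN := Q.semi v
  have hN' := Q.semi' v
  have hNK : Q.N v G ≤ K2 := (semi_le hN G).trans (hK2v v)
  have hNK' : Q.N' v G ≤ K2 := (semi_le hN' G).trans (hK2v v)
  have hN0 := hN.1 G
  have hN0' := hN'.1 G
  have hexp : 0 < Real.exp Q.h := Real.exp_pos _
  -- the key inequality
  have key : Real.exp (-Q.h) ≤ L * (Q.N v G * Q.N' v G) := by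
    have h1 := rr_le Q v G G
    have h2 : max (Q.N v G * Q.N' v G) (Q.N' v G * Q.N v G) = Q.N v G * Q.N' v G := by
      rw [mul_comm (Q.N' v G), max_self]
    rw [h2] at h1
    obtain ⟨m, hm⟩ := rr_int Q G G hDG hDG
    have hDD : ((D * D : ℕ) : ℚ) ≠ 0 := by
      have : (D : ℚ) ≠ 0 := by exact_mod_cast (by omega : D ≠ 0)
      push_cast
      exact mul_ne_zero this this
    have hm0 : m ≠ 0 := by
      intro h
      rw [h, Int.cast_zero] at hm
      exact hr ((mul_eq_zero.1 hm).resolve_left hDD)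
    have hmr : ((D * D : ℕ) : ℝ) * ((rr Q G G : ℚ) : ℝ) = (m : ℝ) := by
      have := congrArg (fun x : ℚ => (x : ℝ)) hm
      simpa using this
    have hDD1 : (1 : ℝ) ≤ ((D * D : ℕ) : ℝ) := by
      exact_mod_cast Nat.one_le_iff_ne_zero.2 (mul_ne_zero (by omega) (by omega))
    cases v with
    | none =>
      have h3 : fac (none : Option S) 1 Q.h = Real.exp Q.h := by
        unfold fac
        rw [if_pos rfl, Nat.cast_one, one_mul]
      rw [h3] at h1
      have h4 : (1 : ℝ) ≤ |(m : ℝ)| := by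
        rw [← Int.cast_abs]
        exact_mod_cast Int.one_le_abs hm0
      have h5 : |(m : ℝ)| ≤ ((D * D : ℕ) : ℝ) * (|C| * (Real.exp Q.h * (Q.N none G * Q.N' none G))) := by
        rw [← hmr, abs_mul, abs_of_nonneg (by positivity : (0 : ℝ) ≤ ((D * D : ℕ) : ℝ))]
        exact mul_le_mul_of_nonneg_left h1 (by positivity)
      rw [Real.exp_neg, inv_le_iff_one_le_mul₀ hexp]
      have h6 : 0 ≤ Q.N none G * Q.N' none G := mul_nonneg hN0 hN0'
      have h7 : ((D * D : ℕ) : ℝ) * (|C| * (Real.exp Q.h * (Q.N none G * Q.N' none G))) ≤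
          L * (Q.N none G * Q.N' none G) * Real.exp Q.h := by
        rw [hL]
        have : 0 ≤ ((D * D : ℕ) : ℝ) * K1 * |C| * (Q.N none G * Q.N' none G) * Real.exp Q.h := by
          positivity
        nlinarith
      linarith
    | some p =>
      have h3 : fac (some p : Option S) 1 Q.h = 1 := by
        unfold fac
        rw [if_neg (by simp)]
      rw [h3, one_mul] at h1
      have hp : (p : ℕ).Prime := hS _ p.2
      have h1' : absQ (some (p : ℕ)) (rr Q G G) ≤ |C| * (Q.N (some p) G * Q.N' (some p) G) := h1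
      have h4 := one_le_mul hp hm0
      have h5 : absQ (some (p : ℕ)) (m : ℚ) ≤ absQ (some (p : ℕ)) (rr Q G G) := by
        rw [← hm, absQ_mul (v := some (p : ℕ)) (fun q hq => (Option.some.inj hq) ▸ hp)]
        refine mul_le_of_le_one_left (absQ_nonneg _ _) ?_
        have := absQ_int_le hp ((D * D : ℕ) : ℤ)
        push_cast at this ⊢
        exact this
      have h6 : |(m : ℝ)| ≤ ((D * D : ℕ) : ℝ) * (K1 * Real.exp Q.h) := by
        rw [← hmr, abs_mul, abs_of_nonneg (by positivity : (0 : ℝ) ≤ ((D * D : ℕ) : ℝ))]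
        apply mul_le_mul_of_nonneg_left _ (by positivity)
        rw [hK1]
        exact rr_abs Q G G
      rw [Real.exp_neg, inv_le_iff_one_le_mul₀ hexp]
      calc (1 : ℝ) ≤ absQ (some (p : ℕ)) (m : ℚ) * |(m : ℝ)| := h4
        _ ≤ (|C| * (Q.N (some p) G * Q.N' (some p) G)) * (((D * D : ℕ) : ℝ) * (K1 * Real.exp Q.h)) :=
            mul_le_mul (h5.trans h1') h6 (abs_nonneg _) (by positivity)
        _ ≤ L * (Q.N (some p) G * Q.N' (some p) G) * Real.exp Q.h := by
            rw [hL]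
            have : 0 ≤ ((D * D : ℕ) : ℝ) * 1 * |C| * (Q.N (some p) G * Q.N' (some p) G) *
                Real.exp Q.h := by
              positivity
            nlinarith
  constructor
  · refine key.trans ?_
    have h1 : L * (Q.N v G * Q.N' v G) ≤ L * (Q.N v G * K2) := by gcongr
    nlinarith
  · refine key.trans ?_
    have h1 : L * (Q.N v G * Q.N' v G) ≤ L * (K2 * Q.N' v G) := by gcongr
    nlinarith

end

section

variable {S : Finset ℕ} {C : ℝ} {U : Ultrafilter ℕ} {Ω : Type} [Field Ω] [Algebra ℚ Ω]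
  (g : Gm U Ω) (Q : ℕ → QData S C)

theorem lf_pi (z : ℕ → Fin 3 → ℂ) (G : Fin 3 → ℚ) :
    lf (fun j => g.π (fun t => z t j)) G = g.π (fun t => ∑ j, (G j : ℂ) * z t j) := by
  unfold lf
  rw [Fin.sum_univ_three, ← g.rat, ← g.rat, ← g.rat, ← map_mul, ← map_mul, ← map_mul, ← map_add,
    ← map_add]
  congr 1
  funext t
  rw [Fin.sum_univ_three]
  rfl

theorem bil_pi (G G' : Fin 3 → ℚ) :
    bil (g.π (fun t => (Q t).c)) (fun j => g.π (fun t => (Q t).z j))
      (fun j => g.π (fun t => (Q t).z' j)) G G' = g.π (fun t => ((rr (Q t) G G' : ℚ) : ℂ)) := by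
  unfold bil
  rw [lf_pi, lf_pi, lf_pi, lf_pi, ← map_mul, ← map_mul, ← map_add, ← map_mul]
  congr 1
  funext t
  rw [rr_eq]
  rfl

variable {Q} {g} (hS : ∀ p ∈ S, p.Prime) (hh : Tendsto (fun t => (Q t).h) U atTop)

include hh in
theorem lv_bil (v : Option S) (G G' : Fin 3 → ℚ) (a a' b b' : ℝ)
    (h1 : Sm U (fun t => (Q t).h) (fun _ => 1) (fun t => (Q t).N v G) a)
    (h2 : Sm U (fun t => (Q t).h) (fun _ => 1) (fun t => (Q t).N' v G) a')
    (h3 : Sm U (fun t => (Q t).h) (fun _ => 1) (fun t => (Q t).N v G') b)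
    (h4 : Sm U (fun t => (Q t).h) (fun _ => 1) (fun t => (Q t).N' v G') b') :
    Lv g (fun t => (Q t).h) v 1 (bil (g.π (fun t => (Q t).c)) (fun j => g.π (fun t => (Q t).z j))
      (fun j => g.π (fun t => (Q t).z' j)) G G') (min (a + b') (b + a')) := by
  obtain ⟨D, hD, hDG⟩ := ex_den G
  obtain ⟨D', hD', hDG'⟩ := ex_den G'
  have hh0 : ∀ t, 0 ≤ (Q t).h := fun t => (Q t).h_nonneg
  refine ⟨fun t => rr (Q t) G G', D * D', Nat.one_le_iff_ne_zero.2
    (mul_ne_zero (by omega) (by omega)), bil_pi g Q G G', Eventually.of_forall fun t =>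
      rr_int (Q t) G G' hDG hDG', ?_⟩
  have e1 := (Sm.mul (fun t => ((Q t).semi v).1 _) (fun t => ((Q t).semi' v).1 _) h1 h4).mono
    hh0 (fun t => by norm_num) (min_le_left (a + b') (b + a'))
  have e2 := (Sm.mul (fun t => ((Q t).semi v).1 _) (fun t => ((Q t).semi' v).1 _) h3 h2).mono
    hh0 (fun t => by norm_num) (min_le_right (a + b') (b + a'))
  have e3 := Sm.max e1 e2
  have e4 : Sm U (fun t => (Q t).h) (fun _ => 1) (fun t => max ((Q t).N v G * (Q t).N' v G')
      ((Q t).N v G' * (Q t).N' v G)) (min (a + b') (b + a')) := by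
    intro ε hε
    filter_upwards [e3 ε hε] with t h5
    rw [one_mul] at h5
    exact h5
  have e5 := Sm.scale (fun t => fac_nonneg v 1 (Q t).h) e4
  refine e5.of_le hh (abs_nonneg C) (fun t => fac_nonneg _ _ _) (Eventually.of_forall fun t => ?_)
  have h6 := rr_le (Q t) v G G'
  rw [mul_comm ((Q t).N' v G)] at h6
  exact h6

theorem lp_zero (N : ℕ → (Fin 3 → ℚ) → ℝ) (h : ℕ → ℝ) (hh : Tendsto h U atTop)
    (hh0 : ∀ t, 0 ≤ h t) (v : Option ℕ) (hN : ∀ t, Semi v (N t)) (G : Fin 3 → ℚ) :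
    Sm U h (fun _ => 1) (fun t => N t G) 0 := by
  apply Sm.const hh hh0 (K := ∑ j, absQ v (G j))
    (Finset.sum_nonneg fun j _ => absQ_nonneg _ _) (fun t => zero_le_one)
  refine Eventually.of_forall fun t => ?_
  rw [mul_one]
  exact semi_le (hN t) G

theorem lp_lin (N : ℕ → (Fin 3 → ℚ) → ℝ) (h : ℕ → ℝ) (hh : Tendsto h U atTop)
    (v : Option ℕ) (hN : ∀ t, Semi v (N t)) (G G' : Fin 3 → ℚ) (r s : ℚ) (a : ℝ)
    (h1 : Sm U h (fun _ => 1) (fun t => N t G) a) (h2 : Sm U h (fun _ => 1) (fun t => N t G') a) :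
    Sm U h (fun _ => 1) (fun t => N t (r • G + s • G')) a := by
  have e1 := h1.of_le hh (f' := fun t => absQ v r * N t G) (absQ_nonneg v r) (fun t => zero_le_one)
    (Eventually.of_forall fun t => le_rfl)
  have e2 := h2.of_le hh (f' := fun t => absQ v s * N t G') (absQ_nonneg v s)
    (fun t => zero_le_one) (Eventually.of_forall fun t => le_rfl)
  have e3 := Sm.add hh (fun t => zero_le_one) e1 e2
  refine e3.of_le hh (K := 1) zero_le_one (fun t => zero_le_one) (Eventually.of_forall fun t => ?_)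
  rw [one_mul]
  exact semi_lin (hN t) G G' r s

theorem lp_three (N : ℕ → (Fin 3 → ℚ) → ℝ) (h : ℕ → ℝ) (hh : Tendsto h U atTop)
    (v : Option ℕ) (hN : ∀ t, Semi v (N t)) (G : Fin 3 → Fin 3 → ℚ) (a : ℝ)
    (hG : LinearIndependent ℚ G) (h1 : ∀ i, Sm U h (fun _ => 1) (fun t => N t (G i)) a) :
    a ≤ 0 := by
  by_contra ha
  rw [not_le] at ha
  -- every vector has level `a`
  have hspan : ∀ x : Fin 3 → ℚ, Sm U h (fun _ => 1) (fun t => N t x) a := by
    have htop : Submodule.span ℚ (Set.range G) = ⊤ :=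
      hG.span_eq_top_of_card_eq_finrank' (by simp)
    intro x
    have hx : x ∈ Submodule.span ℚ (Set.range G) := by rw [htop]; trivial
    induction hx using Submodule.span_induction with
    | mem x hx =>
      obtain ⟨i, rfl⟩ := hx
      exact h1 i
    | zero =>
      have := lp_lin N h hh v hN (G 0) (G 0) 0 0 a (h1 0) (h1 0)
      simpa using this
    | add x y _ _ hx hy =>
      have := lp_lin N h hh v hN x y 1 1 a hx hy
      simpa using this
    | smul c x _ hx =>
      have := lp_lin N h hh v hN x x c 0 a hx hx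
      simpa using this
  have h2 : ∀ᶠ t in (U : Filter ℕ), ∀ j : Fin 3, N t (Pi.single j 1) ≤
      1 * Real.exp (-(a - a / 2) * h t) :=
    eventually_all.2 fun j => hspan (Pi.single j 1) (a / 2) (by positivity)
  obtain ⟨t, h3, h4⟩ := (h2.and (hh.eventually_gt_atTop 0)).exists
  obtain ⟨j, hj⟩ := (hN t).2.2.2.2
  have h5 := h3 j
  rw [hj, one_mul] at h5
  have h6 : Real.exp (-(a - a / 2) * h t) < 1 := by
    rw [Real.exp_lt_one_iff]
    have : 0 < a / 2 * h t := by positivity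
    linarith
  linarith

/-- the level of a form along the ultrafilter -/
theorem ex_lim (h N : ℕ → ℝ) (hh : Tendsto h U atTop) (hN : ∀ t, 0 < N t)
    (h0 : Sm U h (fun _ => 1) N 0) {K : ℝ} (hK : 0 < K)
    (hl : ∀ᶠ t in (U : Filter ℕ), Real.exp (-h t) ≤ K * N t) :
    ∃ α : ℝ, 0 ≤ α ∧ Tendsto (fun t => -Real.log (N t) / h t) U (𝓝 α) ∧
      Sm U h (fun _ => 1) N α := by
  have hmem : ∀ᶠ t in (U : Filter ℕ), -Real.log (N t) / h t ∈ Set.Icc (-1 : ℝ) 2 := by
    filter_upwards [h0 1 one_pos, hl, hh.eventually_gt_atTop 0,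
      hh.eventually_ge_atTop (Real.log K)] with t h1 h2 h3 h4
    constructor
    · rw [le_div_iff₀ h3]
      rw [one_mul, ← Real.log_le_iff_le_exp (hN t)] at h1
      linarith
    · rw [div_le_iff₀ h3]
      rw [← Real.le_log_iff_exp_le (mul_pos hK (hN t)), Real.log_mul hK.ne' (hN t).ne'] at h2
      linarith
  obtain ⟨α, -, hα⟩ := isCompact_Icc.ultrafilter_le_nhds (U.map fun t => -Real.log (N t) / h t)
    (by
      rw [le_principal_iff]
      exact hmem)
  have hα' : Tendsto (fun t => -Real.log (N t) / h t) U (𝓝 α) := hα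
  refine ⟨α, ?_, hα', ?_⟩
  · apply le_of_forall_pos_le_add
    intro ε hε
    have h1 : ∀ᶠ t in (U : Filter ℕ), -ε ≤ -Real.log (N t) / h t := by
      filter_upwards [h0 ε hε, hh.eventually_gt_atTop 0] with t h1 h3
      rw [le_div_iff₀ h3]
      rw [one_mul, ← Real.log_le_iff_le_exp (hN t)] at h1
      linarith
    have := ge_of_tendsto hα' h1
    linarith
  · intro ε hε
    filter_upwards [hα'.eventually_const_le (show α - ε < α by linarith),
      hh.eventually_gt_atTop 0] with t h1 h3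
    rw [le_div_iff₀ h3] at h1
    rw [one_mul, ← Real.log_le_iff_le_exp (hN t)]
    linarith

end

end Pool.Agent.Y660.QP
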