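import Pool.Agent.Y660.QP.Data

/-!
Job HYP (helper734, project Y734/QP), by helper660: the abstract data and the theorem.
-/

set_option autoImplicit false

namespace Pool.Agent.Y660.QP

open Pool.Agent.Y734 Filter Topology MvPolynomial

section

variable {S : Finset ℕ} {U : Ultrafilter ℕ} {Ω : Type} [Field Ω] [Algebra ℚ Ω] (g : Gm U Ω)

theorem sst (hS : ∀ p ∈ S, p.Prime) (husst : UsstStmt) (hU : (U : Filter ℕ) ≤ atTop) (h : ℕ → ℝ)
    (hh : Tendsto h U atTop) (k : ℕ) (W : Submodule ℚ Ω) (ι : Option S → Type)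
    [∀ v, Fintype (ι v)] (b : ∀ v, ι v → Ω) (w : ∀ v, ι v → ℝ)
    (hcard : ∀ v, Fintype.card (ι v) = Module.finrank ℚ W)
    (hli : ∀ v, LinearIndependent ℚ (b v)) (hb : ∀ v i, b v i ∈ W)
    (hL : ∀ v i, Lv g h v k (b v i) (w v i)) :
    ∑ v, ∑ i, w v i ≤ k * Module.finrank ℚ W := by
  classical
  obtain ⟨n, hn⟩ : ∃ n : ℕ, n = Module.finrank ℚ W := ⟨_, rfl⟩
  rw [← hn] at hcard ⊢
  let e : ∀ v, ι v ≃ Fin n := fun v => Fintype.equivFinOfCardEq (hcard v)
  obtain ⟨b', hb'⟩ : ∃ b' : ∀ v : Option S, Fin n → Ω, b' = fun v i => b v ((e v).symm i) :=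
    ⟨_, rfl⟩
  obtain ⟨w', hw'⟩ : ∃ w' : ∀ v : Option S, Fin n → ℝ, w' = fun v i => w v ((e v).symm i) :=
    ⟨_, rfl⟩
  have hsum : ∀ v, ∑ i, w v i = ∑ i, w' v i := by
    intro v
    rw [hw']
    exact ((e v).symm.sum_comp (w v)).symm
  simp only [hsum]
  have hli' : ∀ v, LinearIndependent ℚ (b' v) := by
    intro v
    rw [hb']
    exact (hli v).comp _ (e v).symm.injective
  have hb'' : ∀ v i, b' v i ∈ W := by
    intro v i
    rw [hb']
    exact hb v _
  have hL' : ∀ v i, Lv g h v k (b' v i) (w' v i) := by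
    intro v i
    rw [hb', hw']
    exact hL v _
  rcases Nat.eq_zero_or_pos n with h0 | hpos
  · subst h0
    simp
  have : Nonempty (Fin n) := ⟨⟨0, hpos⟩⟩
  choose r D hD hr hint hsm using hL'
  -- the integral basis
  obtain ⟨x, hx⟩ : ∃ x : ℕ → Fin n → ℤ, x = fun t j => ⌊(D none j : ℚ) * r none j t⌋ := ⟨_, rfl⟩
  have hxe : ∀ j, ∀ᶠ t in (U : Filter ℕ), (x t j : ℚ) = (D none j : ℚ) * r none j t := by
    intro j
    filter_upwards [hint none j] with t ⟨m, hm⟩
    rw [hx]
    simp only
    rw [hm, Int.floor_intCast]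
  have hDq : ∀ j, (D none j : ℚ) ≠ 0 := by
    intro j
    have := hD none j
    exact_mod_cast (by omega : D none j ≠ 0)
  have hxx : ∀ j, g.π (fun t => ((x t j : ℤ) : ℂ)) = (D none j : ℚ) • b' none j := by
    intro j
    rw [hr none j, g.smul, g.eq_iff]
    filter_upwards [hxe j] with t ht
    have := congrArg (fun q : ℚ => (q : ℂ)) ht
    simpa using this
  have hxli : LinearIndependent ℚ (fun j => g.π (fun t => ((x t j : ℤ) : ℂ))) := by
    have h1 := (hli' none).units_smul (fun j => Units.mk0 (D none j : ℚ) (hDq j))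
    have h2 : ((fun j => Units.mk0 (D none j : ℚ) (hDq j)) • (b' none)) =
        fun j => g.π (fun t => ((x t j : ℤ) : ℂ)) := by
      funext j
      rw [hxx j]
      rfl
    rw [← h2]
    exact h1
  have hxW : ∀ j, g.π (fun t => ((x t j : ℤ) : ℂ)) ∈ W := by
    intro j
    rw [hxx j]
    exact W.smul_mem _ (hb'' none j)
  let X : Fin n → W := fun j => ⟨g.π (fun t => ((x t j : ℤ) : ℂ)), hxW j⟩
  have hXli : LinearIndependent ℚ X := by
    apply LinearIndependent.of_comp W.subtype
    exact hxli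
  let BX := basisOfLinearIndependentOfCardEqFinrank hXli (by rw [Fintype.card_fin, hn])
  let Y : ∀ v : Option S, Fin n → W := fun v i => ⟨b' v i, hb'' v i⟩
  have hYli : ∀ v, LinearIndependent ℚ (Y v) := by
    intro v
    apply LinearIndependent.of_comp W.subtype
    exact hli' v
  let BY := fun v => basisOfLinearIndependentOfCardEqFinrank (hYli v) (by rw [Fintype.card_fin, hn])
  let B : Option S → Matrix (Fin n) (Fin n) ℚ := fun v => (BX.toMatrix (BY v)).transpose
  have hBdet : ∀ v, (B v).det ≠ 0 := by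
    intro v
    have h1 := BX.isUnit_det (BY v)
    rw [Module.Basis.det_apply] at h1
    have h2 : (B v).det = (BX.toMatrix (BY v)).det := Matrix.det_transpose _
    rw [h2]
    exact h1.ne_zero
  have hBe : ∀ v i, b' v i = ∑ j, B v i j • g.π (fun t => ((x t j : ℤ) : ℂ)) := by
    intro v i
    have h1 := BX.sum_repr (Y v i)
    have h2 := congrArg (fun y : W => (y : Ω)) h1
    simp only [Submodule.coe_sum, Submodule.coe_smul] at h2
    rw [show b' v i = ((Y v i : W) : Ω) from rfl, ← h2]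
    apply Finset.sum_congr rfl
    intro j _
    have h3 : B v i j = BX.repr (Y v i) j := by
      show BX.toMatrix (BY v) j i = _
      rw [Module.Basis.toMatrix_apply, coe_basisOfLinearIndependentOfCardEqFinrank]
    have h4 : ((BX j : W) : Ω) = g.π (fun t => ((x t j : ℤ) : ℂ)) := by
      rw [coe_basisOfLinearIndependentOfCardEqFinrank]
    rw [h3, h4]
  have hBr : ∀ v i, ∀ᶠ t in (U : Filter ℕ), ∑ j, B v i j * (x t j : ℚ) = r v i t := by
    intro v i
    have h1 : g.π (fun t => ((∑ j, B v i j * (x t j : ℚ) : ℚ) : ℂ)) =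
        g.π (fun t => ((r v i t : ℚ) : ℂ)) := by
      rw [← hr v i, hBe v i]
      simp only [g.smul]
      rw [← map_sum]
      congr 1
      funext t
      rw [Finset.sum_apply]
      push_cast
      rfl
    rw [g.eq_iff] at h1
    filter_upwards [h1] with t ht
    exact_mod_cast ht
  have hrel : ∀ y : Fin n → ℤ, y ≠ 0 → ∀ᶠ t in (U : Filter ℕ), ∑ i, y i * x t i ≠ 0 := by
    intro y hy
    by_contra hc
    rw [← Ultrafilter.eventually_not] at hc
    have h1 : ∀ᶠ t in (U : Filter ℕ), ∑ i, y i * x t i = 0 := by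
      filter_upwards [hc] with t ht
      exact not_not.1 ht
    have h2 : ∑ i, (y i : ℚ) • g.π (fun t => ((x t i : ℤ) : ℂ)) = 0 := by
      simp only [g.smul]
      rw [← map_sum, g.ker]
      filter_upwards [h1] with t ht
      rw [Finset.sum_apply]
      have := congrArg (fun m : ℤ => (m : ℂ)) ht
      push_cast at this ⊢
      exact this
    have h3 := Fintype.linearIndependent_iff.1 hxli (fun i => (y i : ℚ)) h2
    apply hy
    funext i
    exact_mod_cast h3 i
  have key := husst S hS U hU h hh n x hrel B hBdet w' k (by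
    intro v i ε hε
    filter_upwards [hBr v i, hsm v i ε hε] with t h1 h2
    rw [h1]
    exact h2)
  exact key

end

theorem hyp (husst : UsstStmt) (habs : AbsStmt) : HypStmt := by
  intro S hS q hq H hgp C Q hQ hgen hpos ε hε
  by_contra hcon
  rw [not_eventually] at hcon
  obtain ⟨bad, hbad⟩ : ∃ bad : Set ℕ, bad = {t | ¬ ∑ v : Option S, ∑ i,
      (-Real.log ((Q t).N v (H i)) - Real.log ((Q t).N' v (H i))) ≤ (6 + ε) * (Q t).h} := ⟨_, rfl⟩
  have hne : NeBot (atTop ⊓ 𝓟 bad : Filter ℕ) := by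
    rw [← frequently_mem_iff_neBot, hbad]
    exact hcon
  obtain ⟨U, hUd⟩ : ∃ U : Ultrafilter ℕ, U = Ultrafilter.of (atTop ⊓ 𝓟 bad : Filter ℕ) := ⟨_, rfl⟩
  have hUle : (U : Filter ℕ) ≤ atTop ⊓ 𝓟 bad := by
    rw [hUd]
    exact Ultrafilter.of_le _
  have hU : (U : Filter ℕ) ≤ atTop := hUle.trans inf_le_left
  have hUb : ∀ᶠ t in (U : Filter ℕ), t ∈ bad := le_principal_iff.1 (hUle.trans inf_le_right)
  have hh : Tendsto (fun t => (Q t).h) U atTop := hQ.mono_left hU
  have hh0 : ∀ t, 0 ≤ (Q t).h := fun t => (Q t).h_nonneg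
  obtain ⟨Ω, _, _, ⟨g⟩⟩ := ex_gm U
  -- the forms are not zero
  have hHne : ∀ i, H i ≠ 0 := by
    intro i hi
    obtain ⟨j, k, hij, hik, hjk⟩ : ∃ j k : Fin q, i ≠ j ∧ i ≠ k ∧ j ≠ k := by
      have h3 : 2 < Fintype.card (Fin q) := by
        rw [Fintype.card_fin]
        omega
      obtain ⟨a, b, c, hab, hac, hbc⟩ := Fintype.two_lt_card_iff.1 h3
      by_cases h1 : i = a
      · exact ⟨b, c, h1 ▸ hab, h1 ▸ hac, hbc⟩
      · by_cases h2 : i = b
        · exact ⟨a, c, h1, h2 ▸ hbc, hac⟩
        · exact ⟨a, b, h1, h2, hab⟩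
    have := (hgp i j k hij hik hjk).ne_zero 0
    exact this hi
  -- the values of the form are not zero
  have hlin : ∀ G : Fin 3 → ℚ, G ≠ 0 → ∀ᶠ t in (U : Filter ℕ),
      (∑ j, (G j : ℂ) * (Q t).z j) ≠ 0 ∧ (∑ j, (G j : ℂ) * (Q t).z' j) ≠ 0 := by
    intro G hG
    obtain ⟨Φ, hΦ⟩ : ∃ Φ : MvPolynomial (Fin 3) ℚ, Φ = ∑ j, MvPolynomial.C (G j) * X j := ⟨_, rfl⟩
    have h1 : Φ.IsHomogeneous 1 := by
      rw [hΦ]
      apply IsHomogeneous.sum
      intro j _
      have := (isHomogeneous_C (Fin 3) (G j)).mul (isHomogeneous_X ℚ j)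
      rwa [zero_add] at this
    have h2 : Φ ≠ 0 := by
      intro h0
      apply hG
      funext j
      have h3 := congrArg (fun p : MvPolynomial (Fin 3) ℚ => eval (Pi.single j 1) p) h0
      simp only [hΦ, map_sum, map_mul, eval_C, eval_X, map_zero] at h3
      rw [Finset.sum_eq_single j] at h3
      · simpa using h3
      · intro k _ hk
        rw [Pi.single_eq_of_ne hk, mul_zero]
      · intro h
        exact absurd (Finset.mem_univ j) h
    filter_upwards [hU (hgen 1 Φ h1 h2)] with t ht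
    have h4 : ∀ z : Fin 3 → ℂ, aeval z Φ = ∑ j, (G j : ℂ) * z j := by
      intro z
      rw [hΦ]
      simp only [map_sum, map_mul, aeval_C, aeval_X]
      rfl
    rw [h4, h4] at ht
    exact ht
  have hrr : ∀ i, ∀ᶠ t in (U : Filter ℕ), rr (Q t) (H i) (H i) ≠ 0 := by
    intro i
    filter_upwards [hlin (H i) (hHne i)] with t ⟨h1, h2⟩ h3
    have h4 := rr_eq (Q t) (H i) (H i)
    rw [h3, Rat.cast_zero] at h4
    have h5 : (Q t).c * (2 * ((∑ j, (H i j : ℂ) * (Q t).z j) * (∑ j, (H i j : ℂ) * (Q t).z' j))) = 0 := by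
      rw [h4]
      ring
    have h6 := mul_ne_zero (Q t).c_ne (mul_ne_zero two_ne_zero (mul_ne_zero h1 h2))
    exact h6 h5
  -- the exponents
  have hα : ∀ (v : Option S) (i : Fin q), ∃ α : ℝ, 0 ≤ α ∧
      Tendsto (fun t => -Real.log ((Q t).N v (H i)) / (Q t).h) U (𝓝 α) ∧
      Sm U (fun t => (Q t).h) (fun _ => 1) (fun t => (Q t).N v (H i)) α := by
    intro v i
    obtain ⟨K, hK, hl⟩ := liou (C := C) hS (H i)
    refine ex_lim (fun t => (Q t).h) (fun t => (Q t).N v (H i)) hh (fun t => (hpos t v i).1)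
      (lp_zero (fun t => (Q t).N v) _ hh hh0 _ (fun t => (Q t).semi v) _) hK ?_
    filter_upwards [hrr i] with t ht
    exact (hl (Q t) v ht).1
  have hα' : ∀ (v : Option S) (i : Fin q), ∃ α : ℝ, 0 ≤ α ∧
      Tendsto (fun t => -Real.log ((Q t).N' v (H i)) / (Q t).h) U (𝓝 α) ∧
      Sm U (fun t => (Q t).h) (fun _ => 1) (fun t => (Q t).N' v (H i)) α := by
    intro v i
    obtain ⟨K, hK, hl⟩ := liou (C := C) hS (H i)
    refine ex_lim (fun t => (Q t).h) (fun t => (Q t).N' v (H i)) hh (fun t => (hpos t v i).2)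
      (lp_zero (fun t => (Q t).N' v) _ hh hh0 _ (fun t => (Q t).semi' v) _) hK ?_
    filter_upwards [hrr i] with t ht
    exact (hl (Q t) v ht).2
  choose α hα0 hαt hαs using hα
  choose α' hα0' hαt' hαs' using hα'
  have hmono : ∀ (f : ℕ → ℝ) (a b : ℝ), b ≤ a → Sm U (fun t => (Q t).h) (fun _ => 1) f a →
      Sm U (fun t => (Q t).h) (fun _ => 1) f b := fun f a b hab hf =>
    hf.mono hh0 (fun _ => zero_le_one) hab
  let D : HD (Option S) H Ω :=
    { P := fun j => g.π (fun t => (Q t).z j)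
      P' := fun j => g.π (fun t => (Q t).z' j)
      c := g.π (fun t => (Q t).c)
      c_ne := by
        intro h
        rw [g.ker] at h
        obtain ⟨t, ht⟩ := h.exists
        exact (Q t).c_ne ht
      gen := by
        intro n Φ h1 h2 h3
        have h4 := g.aeval (fun t => (Q t).z) Φ
        rw [h4, g.ker] at h3
        obtain ⟨t, ht, ht'⟩ := (h3.and (hU (hgen n Φ h1 h2))).exists
        exact ht'.1 ht
      gen' := by
        intro n Φ h1 h2 h3
        have h4 := g.aeval (fun t => (Q t).z') Φ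
        rw [h4, g.ker] at h3
        obtain ⟨t, ht, ht'⟩ := (h3.and (hU (hgen n Φ h1 h2))).exists
        exact ht'.2 ht
      Lev := fun v k y a => Lv g (fun t => (Q t).h) v k y a
      lev_one := fun v => lv_one hS hh hh0 v
      lev_mul := fun v k l x y a b h1 h2 => lv_mul hS v k l x y a b h1 h2
      lev_mem := by
        intro v y hy
        have hb : ∀ G G', Lv g (fun t => (Q t).h) v 1 (bil (g.π (fun t => (Q t).c))
            (fun j => g.π (fun t => (Q t).z j)) (fun j => g.π (fun t => (Q t).z' j)) G G') 0 := by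
          intro G G'
          have := lv_bil (g := g) hh v G G' 0 0 0 0
            (lp_zero (fun t => (Q t).N v) _ hh hh0 _ (fun t => (Q t).semi v) _)
            (lp_zero (fun t => (Q t).N' v) _ hh hh0 _ (fun t => (Q t).semi' v) _)
            (lp_zero (fun t => (Q t).N v) _ hh hh0 _ (fun t => (Q t).semi v) _)
            (lp_zero (fun t => (Q t).N' v) _ hh hh0 _ (fun t => (Q t).semi' v) _)
          simpa using this
        unfold A1 at hy
        induction hy using Submodule.span_induction with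
        | mem x hx =>
          obtain ⟨G, G', rfl⟩ := hx
          exact hb G G'
        | zero =>
          have := lv_smul hS hh v 1 _ 0 0 (hb 0 0)
          rwa [zero_smul] at this
        | add x y _ _ hx hy => exact lv_add hS hh v 1 x y 0 hx hy
        | smul c x _ hx => exact lv_smul hS hh v 1 x 0 c hx
      LP := fun v G a => Sm U (fun t => (Q t).h) (fun _ => 1) (fun t => (Q t).N v G) a
      LP' := fun v G a => Sm U (fun t => (Q t).h) (fun _ => 1) (fun t => (Q t).N' v G) a
      lp_zero := fun v G => lp_zero (fun t => (Q t).N v) _ hh hh0 _ (fun t => (Q t).semi v) G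
      lp_zero' := fun v G => lp_zero (fun t => (Q t).N' v) _ hh hh0 _ (fun t => (Q t).semi' v) G
      lp_lin := fun v G G' r s a h1 h2 =>
        lp_lin (fun t => (Q t).N v) _ hh _ (fun t => (Q t).semi v) G G' r s a h1 h2
      lp_lin' := fun v G G' r s a h1 h2 =>
        lp_lin (fun t => (Q t).N' v) _ hh _ (fun t => (Q t).semi' v) G G' r s a h1 h2
      lp_mono := fun v G a b hab h1 => hmono _ a b hab h1
      lp_mono' := fun v G a b hab h1 => hmono _ a b hab h1
      lp_three := fun v G a h1 h2 =>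
        lp_three (fun t => (Q t).N v) _ hh _ (fun t => (Q t).semi v) G a h1 h2
      lp_three' := fun v G a h1 h2 =>
        lp_three (fun t => (Q t).N' v) _ hh _ (fun t => (Q t).semi' v) G a h1 h2
      pair := fun v G G' a a' b b' h1 h2 h3 h4 => lv_bil (g := g) hh v G G' a a' b b' h1 h2 h3 h4
      α := α
      α' := α'
      α_nonneg := hα0
      α_nonneg' := hα0'
      lp_α := hαs
      lp_α' := hαs'
      sst := fun k W _ _ ι _ b w h1 h2 h3 h4 =>
        sst g hS husst hU (fun t => (Q t).h) hh k W ι b w h1 h2 h3 h4 }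
  have hfin := habs (Option S) q hq H hgp Ω D
  have hfin' : ∑ v : Option S, ∑ i, (α v i + α' v i) ≤ 6 := hfin
  -- the limit of the failing inequality
  have hlim : Tendsto (fun t => ∑ v : Option S, ∑ i, (-Real.log ((Q t).N v (H i)) / (Q t).h +
      -Real.log ((Q t).N' v (H i)) / (Q t).h)) U (𝓝 (∑ v : Option S, ∑ i, (α v i + α' v i))) :=
    tendsto_finsetSum _ fun v _ => tendsto_finsetSum _ fun i _ => (hαt v i).add (hαt' v i)
  have hge : ∀ᶠ t in (U : Filter ℕ), 6 + ε ≤ ∑ v : Option S, ∑ i,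
      (-Real.log ((Q t).N v (H i)) / (Q t).h + -Real.log ((Q t).N' v (H i)) / (Q t).h) := by
    filter_upwards [hUb, hh.eventually_gt_atTop 0] with t h1 h2
    rw [hbad] at h1
    have h3 := not_le.1 h1
    have h4 : ∑ v : Option S, ∑ i,
        (-Real.log ((Q t).N v (H i)) / (Q t).h + -Real.log ((Q t).N' v (H i)) / (Q t).h) =
        (∑ v : Option S, ∑ i,
          (-Real.log ((Q t).N v (H i)) - Real.log ((Q t).N' v (H i)))) / (Q t).h := by
      rw [Finset.sum_div]
      apply Finset.sum_congr rfl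
      intro v _
      rw [Finset.sum_div]
      apply Finset.sum_congr rfl
      intro i _
      ring
    rw [h4, le_div_iff₀ h2]
    exact h3.le
  have := ge_of_tendsto hlim hge
  linarith

end Pool.Agent.Y660.QP
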